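import Pool.Agent.H640.Fin

/-!
# A constructible forcing notion with the elementary-submodel covering property

`V` is a transitive model of ZFC (a set or a class of sets), `κ` is its first uncountable
cardinal and `LL V` is its constructible universe. There is a non-trivial constructible forcing
notion `P` with `o^L(P) = κ` such that property `(∗)` holds for `P`, with sets `N` of size at
most `κ`.
-/

set_option autoImplicit false

namespace Pool.Agent.Results.MP_467ca8_lc.SmallForcing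

open Pool.Agent.W868 Pool.Agent.W868.GM Pool.Agent.Y588 Pool.Agent.H640

/-- Property `(∗)` of the forcing notion `P` over `V`, with a bound `μ` on the size of `N`: for
every `V`-generic filter `G`, every ordinal `χ` of `V`, every binary relation `R ∈ V[G]` and every
`x ∈ H^{V[G]}(χ)` there is `N ∈ V[G]` with `x ∈ N` such that `N` is an elementary substructure of
`(H^{V[G]}(χ), ∈, R, H^V(χ))`, the set `N ∩ H^V(χ)` is in `V`, and `V[G]` contains an injection
from `N` to `μ`. -/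
def Star (V : Set ZFSet.{0}) (P Le μ : ZFSet.{0}) : Prop :=
  ∀ G, IsGeneric V P Le G → ∀ χ ∈ V, χ.IsOrdinal → ∀ R ∈ ext V G, ∀ x ∈ HM (ext V G) χ,
    ∃ N ∈ ext V G, x ∈ N ∧ IsElem R (HM V χ) {y | y ∈ N} (HM (ext V G) χ) ∧
      (∃ N₀ ∈ V, ∀ y, y ∈ N₀ ↔ y ∈ N ∧ y ∈ HM V χ) ∧ ∃ f ∈ ext V G, IsInj N μ f

/-- Every transitive model `V` of ZFC has a constructible forcing notion `P` that is non-trivial,
has `o^L(P) = ω₁^V`, and satisfies `(∗)`. -/
theorem result (V : Set ZFSet.{0}) (hV : IsZFC V) (κ : ZFSet.{0}) (hκ : IsAleph1 V κ) :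
    ∃ P Le : ZFSet.{0}, IsForcing (LL V) P Le ∧
      (V.Countable → ∀ p ∈ P, ∃ G, IsGeneric V P Le G ∧ p ∈ G) ∧
      (∀ G, IsGeneric V P Le G → G ∉ V) ∧
      (∀ G, IsGeneric (LL V) P Le G → (∀ β ∈ κ, ∀ x ∈ ext (LL V) G, x ⊆ β → x ∈ LL V) ∧
        ∃ x ∈ ext (LL V) G, x ⊆ κ ∧ x ∉ LL V) ∧
      Star V P Le κ := by
  obtain ⟨P, Le, h1, h2, h3, h4, h5⟩ := main hV hκ
  refine ⟨P, Le, h1, fun hc p hp => exists_gen hc h2 hp, h3, h4, ?_⟩
  intro G hG χ hχ hχo R hR x hx
  exact starH hV h2 hG hκ.1 hκ.2.1 (omega_sub hV hκ) h5 hχ hχo hR hx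

end Pool.Agent.Results.MP_467ca8_lc.SmallForcing
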